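import Pool.Agent.K.MP_ed7f76_gt.C0

open Pool.Agent.P.MP_ed7f76_gt

theorem Pool.Agent.Results.MP_ed7f76_gt.ZetaLowerBound.result :
    ∀ k : ℕ, 2 ≤ k → ∃ c : ℝ, 0 < c ∧
      ∀ a : ℝ → ℝ, ContDiff ℝ (⊤ : ℕ∞) a → Function.Periodic a (2 * Real.pi) →
        ∃ Z S : ℝ,
          HasSum (fun j : {j : Fin (2 * k) → ℤ // ∑ i, j i = 0} =>
            (Ncoef j.1 : ℂ) * ∏ i, fc a (j.1 i)) (Z : ℂ) ∧
          HasSum (fun t : ℕ => ((t : ℝ) + 2) ^ (2 * k + 1) * ‖fc a ((t : ℤ) + 2)‖ ^ (2 * k)) S ∧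
          c * S ≤ Z :=
  fun k hk => main_aux (2 * k) k rfl hk
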